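import Mathlib
import Pool.Agent.MP_ee90f2_an.S80.Main

namespace Pool.Agent.Results.MP_ee90f2_an.GraphCriterion

/-- The graph `K` of a Lipschitz function `h` over a closed set `S` is c-removable (every
continuous real function on the plane that is locally convex on the complement of `K` is convex on
the plane) if and only if `h` is a difference of two convex functions on no non-degenerate interval
contained in `S`. -/
theorem result (h : ℝ → ℝ) (L : NNReal) (hh : LipschitzWith L h) (S : Set ℝ) (hS : IsClosed S)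
    (K : Set (EuclideanSpace ℝ (Fin 2))) (hK : K = {z | z 0 ∈ S ∧ z 1 = h (z 0)}) :
    (∀ f : EuclideanSpace ℝ (Fin 2) → ℝ, Continuous f →
        (∀ x ∈ Kᶜ, ∃ V : Set (EuclideanSpace ℝ (Fin 2)),
          IsOpen V ∧ Convex ℝ V ∧ x ∈ V ∧ V ⊆ Kᶜ ∧ ConvexOn ℝ V f) →
        ConvexOn ℝ Set.univ f) ↔
      ∀ a b : ℝ, a < b → Set.Icc a b ⊆ S → ¬ ∃ P Q : ℝ → ℝ, ConvexOn ℝ (Set.Icc a b) P ∧
        ConvexOn ℝ (Set.Icc a b) Q ∧ ∀ x ∈ Set.Icc a b, h x = P x - Q x :=
  Pool.Agent.MP_ee90f2_an.S80.criterion h L hh S hS K hK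

end Pool.Agent.Results.MP_ee90f2_an.GraphCriterion
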