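import Mathlib
import Pool.Agent.MP_ee90f2_an.Mg.Main

namespace Pool.Agent.Results.MP_ee90f2_an.RemovableArc

/-- There is a continuously differentiable function `h` whose graph `K` over `[0,1]` is a
non-trivial continuum in the Euclidean plane that is c-removable: it is closed, and every continuous
real function on the plane that is locally convex on the complement of `K` is convex on the plane. -/
theorem result :
    ∃ (h : ℝ → ℝ) (K : Set (EuclideanSpace ℝ (Fin 2))), ContDiff ℝ 1 h ∧
      K = {z | z 0 ∈ Set.Icc (0 : ℝ) 1 ∧ z 1 = h (z 0)} ∧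
      IsCompact K ∧ IsConnected K ∧ K.Nontrivial ∧ IsClosed K ∧
      ∀ f : EuclideanSpace ℝ (Fin 2) → ℝ, Continuous f →
        (∀ x ∈ Kᶜ, ∃ V : Set (EuclideanSpace ℝ (Fin 2)),
          IsOpen V ∧ Convex ℝ V ∧ x ∈ V ∧ V ⊆ Kᶜ ∧ ConvexOn ℝ V f) →
        ConvexOn ℝ Set.univ f :=
  Pool.Agent.MP_ee90f2_an.exists_removable_arc

end Pool.Agent.Results.MP_ee90f2_an.RemovableArc
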